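import Pool.Agent.K6.H46.HW.Main

/-!
# Meromorphic continuation for all varieties over `ℚ` is a question about cubics

(A) Unconditional. For every scheme `X` of finite type over `ℤ` there are

* a smooth rational affine cubic hypersurface `V : ∑ u_j e_j(x) = w (1 - w)` over `ℤ`, the `e_j` of
  the forms `x_a - x_b x_c`, `x_a - (x_b + x_c)`, `x_a - 1`, with
  `ζ_V(s) = ζ(s - m - r) ζ_X(s - r)`, and
* a cubic form `f` with integral coefficients such that the number of zeros of `f` in every finite
  field is an explicit function of the number of points of `X`,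

and the continuation of `ζ_X` to `ℂ` is equivalent to that of `ζ_V` and to that of `ζ_f`. So the
Hasse-Weil zeta functions of all schemes of finite type over `ℤ` continue if and only if those of
all integral cubic forms do.

(B) For the `L`-functions of the groups `H^i(X, ℚ_ℓ(j))` of the varieties over `ℚ`, for all choices
of the primes `ℓ_p`: the inverse Euler factors of `X` are those of a smooth rational affine cubic
hypersurface, in all degrees, and the question Q1 for all varieties is equivalent to Q1 for these
hypersurfaces.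
-/

set_option autoImplicit false

open MvPolynomial AlgebraicGeometry CategoryTheory

namespace Pool.Agent.Results.MP_148101_nt.CubicHypersurfaces

open Pool.Agent.K6.H18.Cubic Pool.Agent.K6.H18.Cubic.Alg Pool.Agent.K6.H46.HW

theorem result :
    -- (A1) for every scheme of finite type over `ℤ`
    (∀ X : Scheme.{0}, IsArithmeticScheme X →
      ∃ (m r : ℕ) (c : Fin r → Code m) (k : ℕ → ℕ), 0 < r ∧
        IsRationalHypersurface (fun j => el (c j)) ∧ (form c).IsHomogeneous 3 ∧
        (∀ (F : Type) [Field F] [Finite F], zeros (poly fun j => el (c j)) F =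
          Nat.card F ^ (m + r) + Nat.card F ^ r * Nat.card (Pt X F)) ∧
        (∀ (F : Type) [Field F] [Finite F], zeros (form c) F =
          Nat.card F ^ (m + r + 1) + (Nat.card F - 1) * Nat.card F ^ r *
            (Nat.card (Pt X F) + ∑ i ∈ Finset.range (m + 1), k i * (Nat.card F - 1) ^ i)) ∧
        (∀ s : ℂ, (m : ℝ) + r + 1 < s.re → zetaPoly (poly fun j => el (c j)) s =
          riemannZeta (s - (m + r : ℕ)) * zetaScheme X (s - r)) ∧
        (Continues (zetaScheme X) ↔ Continues (zetaPoly (poly fun j => el (c j)))) ∧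
        (Continues (zetaScheme X) ↔ Continues (zetaPoly (form c)))) ∧
    -- (A2) for all schemes of finite type over `ℤ`
    List.TFAE [
      ∀ X : Scheme.{0}, IsArithmeticScheme X → Continues (zetaScheme X),
      ∀ (m r : ℕ) (c : Fin r → Code m), 0 < r → Continues (zetaPoly (poly fun j => el (c j))),
      ∀ (n : ℕ) (f : MvPolynomial (Fin n) ℤ), f.IsHomogeneous 3 → Continues (zetaPoly f)] ∧
    -- (B) the `L`-functions of the varieties over `ℚ`
    ∀ (G : Type) [Group G] (E : LAdic G) (T : Extension E),
      (∀ X, T.mem X → ∀ N : ℕ,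
        ∃ (m r n : ℕ) (e : Fin r → MvPolynomial (Fin m) ℚ), IsElementary ∅ e ∧
          IsRationalHypersurface e ∧ N + n ≤ m + r ∧
          (∀ a b : ℤ, a + 2 * b < 2 * N →
            T.euler X a b = T.euler (specOf (Hypersurface e)) a (b + n)) ∧
          (∀ b : ℤ, b < N → (T.Star X b ↔ T.Star (specOf (Hypersurface e)) (b + n))) ∧
          ∀ a b : ℤ, a + 2 * b < 2 * N →
            (T.Q1 X a b ↔ T.Q1 (specOf (Hypersurface e)) a (b + n))) ∧
      List.TFAE [
        ∀ X, T.mem X → IsSmoothVariety X → ∀ a b : ℤ, T.Q1 X a b,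
        ∀ X, T.mem X → ∀ a b : ℤ, T.Q1 X a b,
        ∀ (m r : ℕ) (e : Fin r → MvPolynomial (Fin m) ℚ), IsElementary ∅ e →
          ∀ a b : ℤ, T.Q1 (specOf (Hypersurface e)) a b] := by
  refine ⟨main_scheme pieces, main_tfae pieces, fun G _ E T => ⟨fun X hX N => ?_, ?_⟩⟩
  · obtain ⟨m, r, n, e, he, hr, hN, h1, h2⟩ :=
      exists_hypersurface_euler T (t_PRQ t_PAD) t_AFF t_ISO t_FAC X hX N
    exact ⟨m, r, n, e, he, hr, hN, h1, h2, q1_iff T h1 h2⟩
  · exact q1_tfae T (t_PRQ t_PAD) t_AFF t_ISO t_FAC

end Pool.Agent.Results.MP_148101_nt.CubicHypersurfaces
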